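import Pool.Agent.Q287.CMJ.Main

set_option autoImplicit false

/-!
# Explosive Crump–Mode–Jagers trees with independent inter-birth times need not have a star

`Q287.CMJ.birth` is the birth time, `Q287.CMJ.explosionTime` is `τ_∞`, `Q287.CMJ.preTree` is the
tree of the individuals born before `τ_∞`, and `Q287.CMJ.law μ` is the law of the whole family
`(X(u))_u` of i.i.d. copies of the random sequence with law `μ`.
-/

namespace Pool.Agent.Results.MP_f93fdf_pr.ExplosiveWithoutStar

open MeasureTheory ProbabilityTheory Q287.CMJ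
open scoped ENNReal

/-- Survival: infinitely many individuals are born before the explosion time. -/
def Survives (X : List ℕ → ℕ → ℝ≥0∞) : Prop := (preTree X).Infinite

/-- The process is explosive: survival has positive probability, and almost surely on survival
the explosion time is finite. -/
def Explosive (μ : Measure (ℕ → ℝ≥0∞)) : Prop :=
  0 < law μ {X | Survives X} ∧ ∀ᵐ X ∂law μ, Survives X → explosionTime X < ∞

/-- `u` is an infinite star: it is born before the explosion and has infinitely many children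
born before the explosion. -/
def IsStar (X : List ℕ → ℕ → ℝ≥0∞) (u : List ℕ) : Prop :=
  u ∈ preTree X ∧ {i : ℕ | (i :: u) ∈ preTree X}.Infinite

/-- **Theorem.** The assertion of the question is false. Moreover there is a law of a sequence of
independent waiting times with values in `(0, 1]` for which the process survives almost surely,
is explosive, and almost surely has no vertex of infinite degree before the explosion. -/
theorem result :
    (¬ ∀ μ : Measure (ℕ → ℝ≥0∞), IsProbabilityMeasure μ →
      iIndepFun (fun (j : ℕ) (y : ℕ → ℝ≥0∞) => y j) μ → (∀ᵐ y ∂μ, ∀ j, 0 < y j) →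
      Explosive μ → ∀ᵐ X ∂law μ, Survives X → ∃! u, IsStar X u) ∧
    ∃ μ : Measure (ℕ → ℝ≥0∞), IsProbabilityMeasure μ ∧
      iIndepFun (fun (j : ℕ) (y : ℕ → ℝ≥0∞) => y j) μ ∧
      (∀ᵐ y ∂μ, ∀ j, 0 < y j ∧ y j ≤ 1) ∧ Explosive μ ∧
      ∀ᵐ X ∂law μ, Survives X ∧ ∀ u, ¬ IsStar X u := by
  have main : ∃ μ : Measure (ℕ → ℝ≥0∞), IsProbabilityMeasure μ ∧
      iIndepFun (fun (j : ℕ) (y : ℕ → ℝ≥0∞) => y j) μ ∧
      (∀ᵐ y ∂μ, ∀ j, 0 < y j ∧ y j ≤ 1) ∧ Explosive μ ∧
      ∀ᵐ X ∂law μ, Survives X ∧ ∀ u, ¬ IsStar X u := by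
    obtain ⟨n, hn, hn0, hnq⟩ := exists_seq (fun k => (1 / 2 : ℝ≥0∞) ^ ((k + 1) * (k + 1) + (k + 1)))
      (fun k => ENNReal.pow_pos (by simp) _)
    let μ : Measure (ℕ → ℝ≥0∞) := Measure.infinitePi (nu n)
    have hμ : IsProbabilityMeasure μ := by infer_instance
    have hbd : ∀ᵐ y ∂μ, ∀ j, 0 < y j ∧ y j ≤ 1 := by
      rw [ae_all_iff]
      intro j
      exact (measurePreserving_eval_infinitePi (nu n) j).quasiMeasurePreserving.ae (nu_ae n j)
    have hexp : ∀ᵐ X ∂law μ, explosionTime X < ∞ := by
      refine ae_explosion μ n hn0 _ (fun k => goodSet_prob n hn (k + 1)) hnq ?_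
      filter_upwards [hbd] with y hy j
      exact (hy j).2.trans_lt ENNReal.one_lt_top
    have hsurv : ∀ᵐ X ∂law μ, Survives X := by
      filter_upwards [hexp, law_ae μ hbd] with X h1 h2
      exact preTree_infinite X (fun u j => (h2 u j).1) h1
    refine ⟨μ, hμ, ?_, hbd, ⟨?_, ?_⟩, ?_⟩
    · exact iIndepFun_infinitePi (P := nu n) (X := fun _ x => x) (fun _ => measurable_id)
    · have h1 : law μ {X | Survives X} = 1 := by
        have h2 : {X : List ℕ → ℕ → ℝ≥0∞ | Survives X} =ᵐ[law μ] Set.univ :=
          Filter.eventuallyEq_univ.2 hsurv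
        rw [measure_congr h2, measure_univ]
      rw [h1]
      exact one_pos
    · filter_upwards [hexp] with X h1 _
      exact h1
    · filter_upwards [hsurv, hexp, law_ae μ (tsum_top n hn)] with X h1 h2 h3
      exact ⟨h1, fun u hu => finite_children X u h2 (h3 u) hu.2⟩
  refine ⟨?_, main⟩
  intro hall
  obtain ⟨μ, hμ, hind, hbd, hexp, hno⟩ := main
  have h1 := hall μ hμ hind (by
    filter_upwards [hbd] with y hy j
    exact (hy j).1) hexp
  have h2 : ∀ᵐ X ∂law μ, False := by
    filter_upwards [h1, hno] with X ha hb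
    obtain ⟨u, hu, _⟩ := ha hb.1
    exact hb.2 u hu
  rw [Filter.eventually_false_iff_eq_bot, ae_eq_bot] at h2
  exact (IsProbabilityMeasure.ne_zero (law μ)) h2

end Pool.Agent.Results.MP_f93fdf_pr.ExplosiveWithoutStar
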